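import Pool.Agent.W54.GR.Pair
import Pool.Agent.W78.GS.Basic

/-!
Project GS (helper78), task GS-8: pairs of close directions with different signs, real quadratic
orders, for an arbitrary completely multiplicative function with values `1` and `-1`.
Port of Pool/Agent/W54/GR/Pair.lean.
-/

set_option autoImplicit false

namespace Pool.Agent.W688.GS

open Finset Filter
open Pool.Agent.H376R2.MR (FK Fj Fj_le Fj_le_sq)
open Pool.Agent.W78.GR hiding GG PE sedge S_PAIR S_BETW gl_mul
open Pool.Agent.W78.GS (Pm)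
open Pool.Agent.W78.GS.R
open Pool.Agent.W54.GR hiding betw_aux betw near_edge pair_of

variable {g : ℕ → ℤ} {t c : ℤ} {η : (Qd t c)ˣ}

lemma mem_sedge' (U : Un t c η) {X : ℝ} {e : Qd t c × Qd t c} :
    e ∈ Pool.Agent.W78.GS.R.sedge g η X ↔ (fd η e.1 ∧ (nm e.1 : ℝ) ≤ X ∧ tp e.2 ∧ (nm e.2 : ℝ) ≤ X ∧
      dt e.1 e.2 = 1) ∧ g (nm e.1) ≠ g (nm e.2) := by
  classical
  unfold Pool.Agent.W78.GS.R.sedge
  rw [mem_filter, U.mem_dedge]

/-- the induction -/
lemma betw_aux (U : Un t c η) (M₁ M₂ : ℝ) : ∀ (N : ℕ) (z z' : Qd t c), dt z z' = N → 0 < dt z z' →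
    tp z → tp z' → prim z → prim z' → s1 z ≤ M₁ → s1 z' ≤ M₁ → s2 z ≤ M₂ → s2 z' ≤ M₂ →
    g (nm z) ≠ g (nm z') →
    ∃ v u : Qd t c, tp v ∧ tp u ∧ dt v u = 1 ∧ s1 v ≤ M₁ ∧ s1 u ≤ M₁ ∧ s2 v ≤ M₂ ∧ s2 u ≤ M₂ ∧
      g (nm v) ≠ g (nm u) ∧ ang η z ≤ ang η v ∧ ang η v < ang η u ∧ ang η u ≤ ang η z' := by
  intro N
  induction N using Nat.strong_induction_on with
  | _ N ih =>
    intro z z' hN hd hz hz' pz pz' h1 h1' h2 h2' hl
    by_cases hd1 : dt z z' = 1
    · exact ⟨z, z', hz, hz', hd1, h1, h1', h2, h2', hl, le_rfl, (U.dt_pos_iff hz hz').1 hd, le_rfl⟩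
    · obtain ⟨u, b, hb0, hbm, hu1, hu2, e1, e2⟩ := exists_mid pz pz' (by omega)
      set m := dt z z' with hm
      have hmR : (0 : ℝ) < m := by exact_mod_cast hd
      have hbR : (0 : ℝ) < b := by exact_mod_cast hb0
      have hbmR : (b : ℝ) + 1 ≤ m := by exact_mod_cast hbm
      have e1R : (m : ℝ) * u.re = b * z.re + z'.re := by exact_mod_cast e1
      have e2R : (m : ℝ) * u.im = b * z.im + z'.im := by exact_mod_cast e2
      have k1 : (m : ℝ) * s1 u = b * s1 z + s1 z' := by
        unfold s1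
        linear_combination e1R + (t / 2 + Real.sqrt ((t : ℝ) ^ 2 - 4 * c) / 2) * e2R
      have k2 : (m : ℝ) * s2 u = b * s2 z + s2 z' := by
        unfold s2
        linear_combination e1R + (t / 2 - Real.sqrt ((t : ℝ) ^ 2 - 4 * c) / 2) * e2R
      have hu : tp u := by
        constructor
        · have : 0 < (m : ℝ) * s1 u := by
            rw [k1]
            exact add_pos (mul_pos hbR hz.1) hz'.1
          exact (mul_pos_iff_of_pos_left hmR).1 this
        · have : 0 < (m : ℝ) * s2 u := by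
            rw [k2]
            exact add_pos (mul_pos hbR hz.2) hz'.2
          exact (mul_pos_iff_of_pos_left hmR).1 this
      have b1 : s1 u ≤ M₁ := by
        have hM : 0 < M₁ := lt_of_lt_of_le hz.1 h1
        have : (m : ℝ) * s1 u ≤ m * M₁ := by
          rw [k1]
          calc b * s1 z + s1 z' ≤ b * M₁ + M₁ := add_le_add (mul_le_mul_of_nonneg_left h1 hbR.le) h1'
            _ = (b + 1) * M₁ := by ring
            _ ≤ m * M₁ := mul_le_mul_of_nonneg_right hbmR hM.le
        exact le_of_mul_le_mul_left this hmR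
      have b2 : s2 u ≤ M₂ := by
        have hM : 0 < M₂ := lt_of_lt_of_le hz.2 h2
        have : (m : ℝ) * s2 u ≤ m * M₂ := by
          rw [k2]
          calc b * s2 z + s2 z' ≤ b * M₂ + M₂ := add_le_add (mul_le_mul_of_nonneg_left h2 hbR.le) h2'
            _ = (b + 1) * M₂ := by ring
            _ ≤ m * M₂ := mul_le_mul_of_nonneg_right hbmR hM.le
        exact le_of_mul_le_mul_left this hmR
      have hzu : ang η z < ang η u := (U.dt_pos_iff hz hu).1 (by omega)
      have huz : ang η u < ang η z' := (U.dt_pos_iff hu hz').1 (by omega)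
      by_cases hlu : g (nm z) = g (nm u)
      · obtain ⟨v, w, g1, g2, g3, g4, g5, g6, g7, g8, g9, g10, g11⟩ :=
          ih b.toNat (by omega) u z' (by omega) (by omega) hu hz' (prim_of_dt hu1).2 pz' b1 h1' b2
            h2' (by rw [← hlu]; exact hl)
        exact ⟨v, w, g1, g2, g3, g4, g5, g6, g7, g8, hzu.le.trans g9, g10, g11⟩
      · exact ⟨z, u, hz, hu, hu1, h1, b1, h2, b2, hlu, le_rfl, hzu, huz.le⟩

theorem betw (U : Un t c η) : ∃ C : ℝ, 1 ≤ C ∧ ∀ (X : ℝ) (z z' : Qd t c),
    tp z → tp z' → prim z → prim z' → (nm z : ℝ) ≤ X → (nm z' : ℝ) ≤ X → 0 < dt z z' →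
    ang η z' - ang η z ≤ 2 * Real.pi → g (nm z) ≠ g (nm z') →
    ∃ v u : Qd t c, tp v ∧ tp u ∧ dt v u = 1 ∧ (nm v : ℝ) ≤ C * X ∧ (nm u : ℝ) ≤ C * X ∧
      g (nm v) ≠ g (nm u) ∧ ang η z ≤ ang η v ∧ ang η v < ang η u ∧ ang η u ≤ ang η z' := by
  have he := U.s1_gt
  refine ⟨s1 (η : Qd t c), he.le, ?_⟩
  intro X z z' hz hz' pz pz' hX hX' hd ha hl
  have hX0 : 0 ≤ X := (Nat.cast_nonneg _).trans hX
  obtain ⟨v, u, g1, g2, g3, g4, g5, g6, g7, g8, g9, g10, g11⟩ :=
    betw_aux U (max (s1 z) (s1 z')) (max (s2 z) (s2 z')) (dt z z').toNat z z'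
      (by omega) hd hz hz' pz pz' (le_max_left _ _) (le_max_right _ _) (le_max_left _ _)
      (le_max_right _ _) hl
  have hlt := (U.dt_pos_iff hz hz').1 hd
  have habs : |ang η z' - ang η z| ≤ 2 * Real.pi := by
    rw [abs_of_pos (by linarith)]
    exact ha
  have habs' : |ang η z - ang η z'| ≤ 2 * Real.pi := by
    rw [abs_sub_comm]
    exact habs
  have hprod : max (s1 z) (s1 z') * max (s2 z) (s2 z') ≤ s1 (η : Qd t c) * X := by
    have q1 : s1 z * s2 z ≤ s1 (η : Qd t c) * X := by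
      rw [← nm_tp U.disc hz]
      exact hX.trans (le_mul_of_one_le_left hX0 he.le)
    have q2 : s1 z' * s2 z' ≤ s1 (η : Qd t c) * X := by
      rw [← nm_tp U.disc hz']
      exact hX'.trans (le_mul_of_one_le_left hX0 he.le)
    have q3 := prod_le U hz hz' hX hX' habs
    have q4 := prod_le U hz' hz hX' hX habs'
    rcases le_total (s1 z) (s1 z') with k1 | k1 <;> rcases le_total (s2 z) (s2 z') with k2 | k2
    · rw [max_eq_right k1, max_eq_right k2]; exact q2
    · rw [max_eq_right k1, max_eq_left k2]; exact q3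
    · rw [max_eq_left k1, max_eq_right k2]; exact q4
    · rw [max_eq_left k1, max_eq_left k2]; exact q1
  refine ⟨v, u, g1, g2, g3, ?_, ?_, g8, g9, g10, g11⟩
  · rw [nm_tp U.disc g1]
    exact (mul_le_mul g4 g6 g1.2.le (hz.1.le.trans (le_max_left _ _))).trans hprod
  · rw [nm_tp U.disc g2]
    exact (mul_le_mul g5 g7 g2.2.le (hz.1.le.trans (le_max_left _ _))).trans hprod

/-- a pair of close directions with different signs is close to a sign change pair -/
lemma near_edge (hg : Pm g) (U : Un t c η) {CB : ℝ}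
    (hB : ∀ (X : ℝ) (z z' : Qd t c),
      tp z → tp z' → prim z → prim z' → (nm z : ℝ) ≤ X → (nm z' : ℝ) ≤ X → 0 < dt z z' →
      ang η z' - ang η z ≤ 2 * Real.pi → g (nm z) ≠ g (nm z') →
      ∃ v u : Qd t c, tp v ∧ tp u ∧ dt v u = 1 ∧ (nm v : ℝ) ≤ CB * X ∧ (nm u : ℝ) ≤ CB * X ∧
        g (nm v) ≠ g (nm u) ∧ ang η z ≤ ang η v ∧ ang η v < ang η u ∧ ang η u ≤ ang η z')
    {X : ℝ} {z z' u : Qd t c} (hz : z ∈ pball η X)
    (hz' : z' ∈ pball η X) (hu : tp u) (hgl : g (nm z) ≠ g (nm (u * z'))) {δ : ℝ}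
    (hδ : δ ≤ 1 / 2) (hr : |rd (ang η z - ang η (u * z'))| ≤ δ) :
    ∃ e ∈ sedge g η (CB * nm u * X), (∃ j : ℤ, |ang η z - ang η e.1 + 2 * Real.pi * j| ≤ δ) ∧
      (∃ j : ℤ, |ang η z' - (ang η e.1 - ang η u) + 2 * Real.pi * j| ≤ δ) := by
  obtain ⟨hz1, hz2, hz3⟩ := U.mem_pball.1 hz
  obtain ⟨hz1', hz2', hz3'⟩ := U.mem_pball.1 hz'
  have hpi := Real.pi_gt_three
  have hX0 : 0 ≤ X := (Nat.cast_nonneg _).trans hz3
  have hw : tp (u * z') := tp_mul U.disc hu hz1'.1
  obtain ⟨y, n, hn, hy, hwy⟩ := exists_primpart (tp_ne_zero hw)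
  have hnR : (0 : ℝ) < n := by exact_mod_cast hn
  have hty : tp y := by
    have h1 := hw
    rw [hwy] at h1
    obtain ⟨h2, h3⟩ := h1
    rw [s1_mul U.disc, s1_natCast] at h2
    rw [s2_mul U.disc, s2_natCast] at h3
    exact ⟨(mul_pos_iff_of_pos_left hnR).1 h2, (mul_pos_iff_of_pos_left hnR).1 h3⟩
  have hangy : ang η (u * z') = ang η y := by
    rw [hwy, ang_mul U.disc (tp_natCast hn) hty, ang_natCast hn, zero_add]
  have hang2 : ang η (u * z') = ang η u + ang η z' := ang_mul U.disc hu hz1'.1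
  have hgly : g (nm (u * z')) = g (nm y) := by
    rw [hwy]
    rw [nm_mul, nm_natCast, hg.sq_mul hn.ne' (nm_pos U.disc hty).ne']
  have hyX : (nm y : ℝ) ≤ nm u * X := by
    have h1 : nm (u * z') = n ^ 2 * nm y := by rw [hwy, nm_mul, nm_natCast]
    rw [nm_mul] at h1
    have h2 : (nm y : ℝ) ≤ nm u * nm z' := by
      have : nm y ≤ nm u * nm z' := by
        rw [h1]; exact Nat.le_mul_of_pos_left _ (by positivity)
      exact_mod_cast this
    exact h2.trans (mul_le_mul_of_nonneg_left hz3' (Nat.cast_nonneg _))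
  have hNu : (1 : ℝ) ≤ nm u := one_le_nmR U.disc hu
  have hzX : (nm z : ℝ) ≤ nm u * X := hz3.trans (le_mul_of_one_le_left hX0 hNu)
  rw [hgly] at hgl
  set m : ℤ := rj (ang η z - ang η (u * z')) with hm
  set y' : Qd t c := ((η ^ m : (Qd t c)ˣ) : Qd t c) * y with hy'
  have ty' : tp y' := (U.tp_zpow_mul m).2 hty
  have py' : prim y' := (prim_zpow_mul m).2 hy
  have ny' : nm y' = nm y := Un.nm_zpow_mul m y
  have ay' : ang η y' = ang η y + 2 * Real.pi * m := U.ang_zpow_mul m hty
  have hr' : |ang η z - ang η y'| ≤ δ := by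
    have : ang η z - ang η y' = rd (ang η z - ang η (u * z')) := by
      unfold rd
      rw [ay', ← hm, hangy]
      ring
    rw [this]
    exact hr
  have hr2 := abs_le.1 hr'
  have hdt : dt z y' ≠ 0 := by
    intro h0
    have h1 := dt_zero_tp hz2 py' hz1.1 ty' h0
    apply hgl
    rw [← ny', h1]
  have hl : g (nm z) ≠ g (nm y') := by
    rw [ny']
    exact hgl
  -- the conclusion from a pair with close angles
  have fin : ∀ v w : Qd t c, tp v → tp w → dt v w = 1 → (nm v : ℝ) ≤ CB * (nm u * X) →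
      (nm w : ℝ) ≤ CB * (nm u * X) → g (nm v) ≠ g (nm w) → |ang η z - ang η v| ≤ δ →
      |ang η y' - ang η v| ≤ δ →
      ∃ e ∈ sedge g η (CB * nm u * X), (∃ j : ℤ, |ang η z - ang η e.1 + 2 * Real.pi * j| ≤ δ) ∧
      (∃ j : ℤ, |ang η z' - (ang η e.1 - ang η u) + 2 * Real.pi * j| ≤ δ) := by
    intro v w hv hw' hdt1 nv nw hlvw k1 k2
    set J := ex η v with hJ
    have hav : ang η (((η ^ J : (Qd t c)ˣ) : Qd t c) * v) = ang η v + 2 * Real.pi * J :=
      U.ang_zpow_mul J hv
    refine ⟨(((η ^ J : (Qd t c)ˣ) : Qd t c) * v, ((η ^ J : (Qd t c)ˣ) : Qd t c) * w), ?_,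
      ⟨J, ?_⟩, ⟨J + m, ?_⟩⟩
    · rw [mem_sedge' U]
      simp only
      rw [Un.nm_zpow_mul, Un.nm_zpow_mul, U.dt_zpow_mul]
      refine ⟨⟨U.rep_fd hv, ?_, (U.tp_zpow_mul J).2 hw', ?_, hdt1⟩, hlvw⟩
      · rw [mul_assoc]; exact nv
      · rw [mul_assoc]; exact nw
    · simp only
      rw [hav]
      have : ang η z - (ang η v + 2 * Real.pi * J) + 2 * Real.pi * J = ang η z - ang η v := by ring
      rw [this]
      exact k1
    · simp only
      rw [hav]
      have : ang η z' - (ang η v + 2 * Real.pi * J - ang η u) + 2 * Real.pi * ((J + m : ℤ) : ℝ) =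
          ang η y' - ang η v := by
        rw [ay', ← hangy, hang2]
        push_cast
        ring
      rw [this]
      exact k2
  rcases lt_or_gt_of_ne hdt with hneg | hpos
  · have hd : 0 < dt y' z := by
      have : dt y' z = - dt z y' := by unfold dt; ring
      omega
    have hlt := (U.dt_pos_iff ty' hz1.1).1 hd
    obtain ⟨v, w, g1, g2, g3, g4, g5, g6, g7, g8, g9⟩ := hB (nm u * X) y' z ty' hz1.1 py' hz2
      (by rw [ny']; exact hyX) hzX hd (by linarith) (Ne.symm hl)
    refine fin v w g1 g2 g3 g4 g5 g6 ?_ ?_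
    · rw [abs_le]
      constructor <;> linarith
    · rw [abs_le]
      constructor <;> linarith
  · have hlt := (U.dt_pos_iff hz1.1 ty').1 hpos
    obtain ⟨v, w, g1, g2, g3, g4, g5, g6, g7, g8, g9⟩ := hB (nm u * X) z y' hz1.1 ty' hz2 py'
      hzX (by rw [ny']; exact hyX) hpos (by linarith) hl
    refine fin v w g1 g2 g3 g4 g5 g6 ?_ ?_
    · rw [abs_le]
      constructor <;> linarith
    · rw [abs_le]
      constructor <;> linarith

theorem pair_of (hgm : Pm g) (U : Un t c η) (hS : S_SECT t c η) (hL : S_LAT t c η) :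
    S_PAIR g η := by
  classical
  intro u hu
  have hB := betw (g := g) U
  obtain ⟨C, hC, hS⟩ := hS
  obtain ⟨CB, hCB, hB⟩ := hB
  obtain ⟨CL, hCL, hL, -⟩ := hL
  have hpi := Real.pi_pos
  have hkap := kap_pos U
  have hNu : (1 : ℝ) ≤ nm u := one_le_nmR U.disc hu
  refine ⟨C ^ 2 + (kap η + CL) * (8 * C * Real.pi ^ 2), by positivity, CB * nm u,
    by nlinarith, ?_⟩
  intro X T K hX hT hK hTK
  have hX0 : 0 < X := by linarith
  have hT0 : 0 < T := by linarith
  have hKR : (1 : ℝ) ≤ K := by exact_mod_cast hK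
  have hK0 : (0 : ℝ) < K := by linarith
  have hδ : T / K ≤ 1 / 2 := by
    rw [div_le_div_iff₀ hK0 (by norm_num)]; linarith
  set r : Qd t c → Qd t c → ℝ := fun z z' => rd (ang η z - ang η (u * z')) with hr
  -- pointwise bound
  have hpt : ∀ z ∈ pball η X, ∀ z' ∈ pball η X,
      (if g (nm z) ≠ g (nm (u * z')) then Fj K (ang η z - ang η (u * z')) else 0) ≤
      (if g (nm z) ≠ g (nm (u * z')) ∧ |r z z'| ≤ T / K then (K : ℝ) else 0) +
      ∑ j ∈ range (K + 2), (if |r z z'| ≤ 2 ^ (j + 1) * T / K then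
        Real.pi ^ 2 * K / (T ^ 2) * (1 / 4) ^ j else 0) := by
    intro z _ z' _
    have h1 := pt_bound hK hT (abs_rd_le (ang η z - ang η (u * z')))
    have h2 : 0 ≤ ∑ j ∈ range (K + 2), (if |r z z'| ≤ 2 ^ (j + 1) * T / K then
        Real.pi ^ 2 * K / (T ^ 2) * (1 / 4) ^ j else 0) := by
      apply Finset.sum_nonneg
      intro j _
      split_ifs
      · positivity
      · exact le_rfl
    by_cases hg : g (nm z) ≠ g (nm (u * z'))
    · rw [if_pos hg, Fj_rd]
      refine h1.trans ?_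
      apply add_le_add _ le_rfl
      by_cases hn : |rd (ang η z - ang η (u * z'))| ≤ T / K
      · rw [if_pos hn, if_pos ⟨hg, hn⟩]
      · rw [if_neg hn]
        split_ifs
        · positivity
        · exact le_rfl
    · rw [if_neg hg]
      have : 0 ≤ (if g (nm z) ≠ g (nm (u * z')) ∧ |r z z'| ≤ T / K then (K : ℝ) else 0) := by
        split_ifs
        · positivity
        · exact le_rfl
      linarith
  -- near pairs
  have hnear : ∑ z ∈ pball η X, ∑ z' ∈ pball η X,
      (if g (nm z) ≠ g (nm (u * z')) ∧ |r z z'| ≤ T / K then (K : ℝ) else 0) ≤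
      C ^ 2 * (K * (T * X / K + 1) ^ 2 * ((sedge g η (CB * nm u * X)).card : ℝ)) := by
    rw [← Finset.sum_product', ← Finset.sum_filter, Finset.sum_const, nsmul_eq_mul]
    set A : Qd t c × Qd t c → Finset (Qd t c) := fun e =>
      (pball η X).filter (fun z => ∃ j : ℤ, |ang η z - ang η e.1 + 2 * Real.pi * j| ≤ T / K) with hA
    set B : Qd t c × Qd t c → Finset (Qd t c) := fun e =>
      (pball η X).filter
        (fun z => ∃ j : ℤ, |ang η z - (ang η e.1 - ang η u) + 2 * Real.pi * j| ≤ T / K)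
      with hBd
    have hsub : ((pball η X ×ˢ pball η X).filter
        (fun p : Qd t c × Qd t c => g (nm p.1) ≠ g (nm (u * p.2)) ∧ |r p.1 p.2| ≤ T / K)) ⊆
        (sedge g η (CB * nm u * X)).biUnion (fun e => A e ×ˢ B e) := by
      rintro ⟨z, z'⟩ hp
      rw [mem_filter, mem_product] at hp
      obtain ⟨⟨hz, hz'⟩, hg, hn⟩ := hp
      obtain ⟨e, he, h1, h2⟩ := near_edge hgm U hB hz hz' hu hg hδ hn
      rw [mem_biUnion]
      exact ⟨e, he, mem_product.2 ⟨mem_filter.2 ⟨hz, h1⟩, mem_filter.2 ⟨hz', h2⟩⟩⟩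
    have hcard : (((pball η X ×ˢ pball η X).filter
        (fun p : Qd t c × Qd t c => g (nm p.1) ≠ g (nm (u * p.2)) ∧ |r p.1 p.2| ≤ T / K)).card : ℝ) ≤
        ((sedge g η (CB * nm u * X)).card : ℝ) * (C * (X * (T / K) + 1)) ^ 2 := by
      have h1 := (Finset.card_le_card hsub).trans Finset.card_biUnion_le
      have h2 : ((∑ e ∈ sedge g η (CB * nm u * X), (A e ×ˢ B e).card : ℕ) : ℝ) ≤
          ∑ e ∈ sedge g η (CB * nm u * X), (C * (X * (T / K) + 1)) ^ 2 := by
        push_cast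
        apply Finset.sum_le_sum
        intro e _
        rw [Finset.card_product]
        push_cast
        rw [pow_two]
        have hδ0 : 0 ≤ T / K := by positivity
        have hδπ : T / K ≤ Real.pi := by have := Real.pi_gt_three; linarith
        apply mul_le_mul
        · have := hS X (T / K) (ang η e.1) hX hδ0 hδπ
          simpa [hA] using this
        · have := hS X (T / K) (ang η e.1 - ang η u) hX hδ0 hδπ
          simpa [hBd] using this
        · positivity
        · positivity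
      rw [Finset.sum_const, nsmul_eq_mul] at h2
      exact le_trans (by exact_mod_cast h1) h2
    calc (((pball η X ×ˢ pball η X).filter
        (fun p : Qd t c × Qd t c => g (nm p.1) ≠ g (nm (u * p.2)) ∧ |r p.1 p.2| ≤ T / K)).card : ℝ)
          * K ≤ ((sedge g η (CB * nm u * X)).card : ℝ) * (C * (X * (T / K) + 1)) ^ 2 * K :=
          mul_le_mul_of_nonneg_right hcard hK0.le
      _ = C ^ 2 * (K * (T * X / K + 1) ^ 2 * ((sedge g η (CB * nm u * X)).card : ℝ)) := by
          have : X * (T / K) = T * X / K := by ring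
          rw [this]; ring
  -- far pairs
  have hfar : ∑ z ∈ pball η X, ∑ z' ∈ pball η X,
      ∑ j ∈ range (K + 2), (if |r z z'| ≤ 2 ^ (j + 1) * T / K then
        Real.pi ^ 2 * K / (T ^ 2) * (1 / 4) ^ j else 0) ≤
      (kap η + CL) * (8 * C * Real.pi ^ 2) * (X ^ 2 / T + X * K / T ^ 2) := by
    have hone : ∀ z ∈ pball η X, ∑ z' ∈ pball η X,
        ∑ j ∈ range (K + 2), (if |r z z'| ≤ 2 ^ (j + 1) * T / K then
          Real.pi ^ 2 * K / (T ^ 2) * (1 / 4) ^ j else 0) ≤
        8 * C * Real.pi ^ 2 * (X / T + K / T ^ 2) := by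
      intro z _
      rw [Finset.sum_comm]
      have hj : ∀ j ∈ range (K + 2), ∑ z' ∈ pball η X, (if |r z z'| ≤ 2 ^ (j + 1) * T / K then
          Real.pi ^ 2 * K / (T ^ 2) * (1 / 4) ^ j else 0) ≤
          2 * C * Real.pi ^ 2 * X / T * (1 / 2) ^ j + C * Real.pi ^ 2 * K / T ^ 2 * (1 / 4) ^ j := by
        intro j _
        rw [← Finset.sum_filter, Finset.sum_const, nsmul_eq_mul]
        set δ := min Real.pi (2 ^ (j + 1) * T / K) with hδd
        have hδ0 : 0 ≤ δ := le_min hpi.le (by positivity)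
        have hsub : (pball η X).filter (fun z' => |r z z'| ≤ 2 ^ (j + 1) * T / K) ⊆
            (pball η X).filter (fun z' => ∃ m : ℤ,
              |ang η z' - (ang η z - ang η u) + 2 * Real.pi * m| ≤ δ) := by
          intro z' hz'
          rw [mem_filter] at hz' ⊢
          refine ⟨hz'.1, ?_⟩
          have hz2 := (U.mem_pball.1 hz'.1).1.1
          refine ⟨rj (ang η z - ang η (u * z')), ?_⟩
          have e1 : ang η z' - (ang η z - ang η u) +
              2 * Real.pi * ((rj (ang η z - ang η (u * z')) : ℤ) : ℝ) = -(r z z') := by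
            rw [hr]
            simp only
            unfold rd
            have e2 := ang_mul (η := η) U.disc hu hz2
            linarith
          rw [e1, abs_neg]
          exact le_min (abs_rd_le _) hz'.2
        have h1 : (((pball η X).filter (fun z' => |r z z'| ≤ 2 ^ (j + 1) * T / K)).card : ℝ) ≤
            C * (X * (2 ^ (j + 1) * T / K) + 1) := by
          have h2 := hS X δ (ang η z - ang η u) hX hδ0 (min_le_left _ _)
          have h3 : (((pball η X).filter (fun z' => |r z z'| ≤ 2 ^ (j + 1) * T / K)).card : ℝ) ≤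
              (((pball η X).filter (fun z' => ∃ m : ℤ,
                |ang η z' - (ang η z - ang η u) + 2 * Real.pi * m| ≤ δ)).card : ℝ) := by
            exact_mod_cast Finset.card_le_card hsub
          have h4 : C * (X * δ + 1) ≤ C * (X * (2 ^ (j + 1) * T / K) + 1) := by
            apply mul_le_mul_of_nonneg_left _ hC.le
            have := mul_le_mul_of_nonneg_left (min_le_right Real.pi (2 ^ (j + 1) * T / K)) hX0.le
            linarith
          exact h3.trans (h2.trans h4)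
        calc _ ≤ C * (X * (2 ^ (j + 1) * T / K) + 1) * (Real.pi ^ 2 * K / T ^ 2 * (1 / 4) ^ j) :=
              mul_le_mul_of_nonneg_right h1 (by positivity)
          _ = 2 * C * Real.pi ^ 2 * X / T * (1 / 2) ^ j +
              C * Real.pi ^ 2 * K / T ^ 2 * (1 / 4) ^ j := by
              have e1 : (2 : ℝ) ^ (j + 1) * (1 / 4) ^ j = 2 * (1 / 2) ^ j := by
                rw [pow_succ, mul_comm ((2 : ℝ) ^ j) 2, mul_assoc, ← mul_pow]; norm_num
              have e2 : C * (X * (2 ^ (j + 1) * T / K) + 1) *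
                  (Real.pi ^ 2 * K / T ^ 2 * (1 / 4) ^ j) =
                  C * X * Real.pi ^ 2 / T * (2 ^ (j + 1) * (1 / 4) ^ j) +
                    C * Real.pi ^ 2 * K / T ^ 2 * (1 / 4) ^ j := by
                field_simp
              rw [e2, e1]; ring
      refine (Finset.sum_le_sum hj).trans ?_
      rw [Finset.sum_add_distrib, ← Finset.mul_sum, ← Finset.mul_sum]
      have g1 := mul_le_mul_of_nonneg_left (geom_half (K + 2))
        (by positivity : 0 ≤ 2 * C * Real.pi ^ 2 * X / T)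
      have g2 := mul_le_mul_of_nonneg_left (geom_quarter (K + 2))
        (by positivity : 0 ≤ C * Real.pi ^ 2 * K / T ^ 2)
      have g3 : 0 ≤ C * Real.pi ^ 2 * X / T := by positivity
      have g4 : 0 ≤ C * Real.pi ^ 2 * K / T ^ 2 := by positivity
      calc _ ≤ 2 * C * Real.pi ^ 2 * X / T * 2 + C * Real.pi ^ 2 * K / T ^ 2 * 2 :=
            add_le_add g1 g2
        _ = 4 * (C * Real.pi ^ 2 * X / T) + 2 * (C * Real.pi ^ 2 * K / T ^ 2) := by ring
        _ ≤ 8 * (C * Real.pi ^ 2 * X / T) + 8 * (C * Real.pi ^ 2 * K / T ^ 2) := by linarith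
        _ = 8 * C * Real.pi ^ 2 * (X / T + K / T ^ 2) := by ring
    refine (Finset.sum_le_sum hone).trans ?_
    rw [Finset.sum_const, nsmul_eq_mul]
    have hcard : ((pball η X).card : ℝ) ≤ (kap η + CL) * X := by
      have h1 : ((pball η X).card : ℝ) ≤ ((ball η X).card : ℝ) := by
        exact_mod_cast Finset.card_le_card (Finset.filter_subset _ _)
      have hL1 := hL X 1 0 hX le_rfl
      rw [filter_true_of_mem (by intro z _; unfold lat; simp)] at hL1
      have h2 := (abs_le.1 hL1).2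
      rw [Nat.cast_one, div_one] at h2
      have h3 : Real.sqrt X ≤ X := by
        rw [Real.sqrt_le_left hX0.le]
        nlinarith
      have h4 := mul_le_mul_of_nonneg_left h3 hCL.le
      linarith
    calc ((pball η X).card : ℝ) * (8 * C * Real.pi ^ 2 * (X / T + K / T ^ 2))
        ≤ (kap η + CL) * X * (8 * C * Real.pi ^ 2 * (X / T + K / T ^ 2)) :=
          mul_le_mul_of_nonneg_right hcard (by positivity)
      _ = (kap η + CL) * (8 * C * Real.pi ^ 2) * (X ^ 2 / T + X * K / T ^ 2) := by ring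
  have htot : ∑ z ∈ pball η X, ∑ z' ∈ pball η X,
      (if g (nm z) ≠ g (nm (u * z')) then Fj K (ang η z - ang η (u * z')) else 0) ≤
      C ^ 2 * (K * (T * X / K + 1) ^ 2 * ((sedge g η (CB * nm u * X)).card : ℝ)) +
      (kap η + CL) * (8 * C * Real.pi ^ 2) * (X ^ 2 / T + X * K / T ^ 2) := by
    refine (Finset.sum_le_sum fun z hz => Finset.sum_le_sum fun z' hz' => hpt z hz z' hz').trans ?_
    simp only [Finset.sum_add_distrib] at hnear hfar ⊢
    linarith
  refine htot.trans ?_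
  have a1 : 0 ≤ (K : ℝ) * (T * X / K + 1) ^ 2 * ((sedge g η (CB * nm u * X)).card : ℝ) := by
    positivity
  have a2 : 0 ≤ X ^ 2 / T + X * K / T ^ 2 := by positivity
  have a3 : 0 ≤ (kap η + CL) * (8 * C * Real.pi ^ 2) := by positivity
  have a4 : 0 ≤ C ^ 2 := by positivity
  have b1 := mul_nonneg a3 a1
  have b2 := mul_nonneg a4 a2
  calc _ ≤ C ^ 2 * (K * (T * X / K + 1) ^ 2 * ((sedge g η (CB * nm u * X)).card : ℝ)) +
      (kap η + CL) * (8 * C * Real.pi ^ 2) * (X ^ 2 / T + X * K / T ^ 2) +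
      ((kap η + CL) * (8 * C * Real.pi ^ 2)) *
        (K * (T * X / K + 1) ^ 2 * ((sedge g η (CB * nm u * X)).card : ℝ))
      + C ^ 2 * (X ^ 2 / T + X * K / T ^ 2) := by linarith
    _ = _ := by ring

end Pool.Agent.W688.GS
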