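import Pool.Agent.W78.GA.T1
import Pool.Agent.W78.GR.T1
import Pool.Agent.W29.GA.Mult
import Pool.Agent.W29.GR.Mult
import Pool.Agent.W78.GS.Basic
import Pool.Agent.W688.GS.Pair

/-!
Project GS (helper78), task GS-11: from sign changes to triples, for an arbitrary completely
multiplicative function with values `1` and `-1`. Port of W78/GA/T1.lean and W78/GR/T1.lean.
-/

set_option autoImplicit false

namespace Pool.Agent.W688.GS.BA

open Finset Filter
open Pool.Agent.W78.GS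
open Pool.Agent.W78
open Pool.Agent.W78.GA hiding sedge Bs mem_Bs Bs_mono sedge_sub neg_all pos_all bs_all S_SC GG PE S_DEC S_MOM0 S_MOMP S_MOM S_CELLE S_MR S_PAIR S_U0

variable {g : ℕ → ℤ} {t c : ℤ}

open scoped Classical in
/-- pairs of determinant one whose product of norms has no large square divisor, with sign `s` -/
noncomputable def Bs (g : ℕ → ℤ) (t c : ℤ) (S : ℕ) (s : ℤ) (X : ℝ) : Finset (Qd t c × Qd t c) :=
  (dedge t c X).filter (fun e => (∀ q : ℕ, q ^ 2 ∣ NN e → q ≤ S) ∧ g (NN e) = s)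

lemma mem_Bs {S : ℕ} {s : ℤ} {X : ℝ} {e : Qd t c × Qd t c} :
    e ∈ Bs g t c S s X ↔ e ∈ dedge t c X ∧ (∀ q : ℕ, q ^ 2 ∣ NN e → q ≤ S) ∧ g (NN e) = s := by
  simp [Bs]

lemma Bs_mono {S S' : ℕ} (h : S ≤ S') (s : ℤ) (X : ℝ) : Bs g t c S s X ⊆ Bs g t c S' s X := by
  intro e he
  rw [mem_Bs] at he ⊢
  exact ⟨he.1, fun q hq => (he.2.1 q hq).trans h, he.2.2⟩

lemma sedge_sub (hg : Pm g) (hD : t ^ 2 < 4 * c) {X : ℝ} {e : Qd t c × Qd t c} (he : e ∈ A.sedge g t c X) :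
    e ∈ dedge t c X ∧ g (NN e) = -1 := by
  classical
  simp only [A.sedge, GA.edge, mem_filter, mem_product] at he
  obtain ⟨⟨⟨h1, h2⟩, h3, -⟩, h4⟩ := he
  refine ⟨mem_dedge.2 ⟨h1, h2, h3⟩, ?_⟩
  unfold NN
  rw [hg.mul (nm_pos hD (prim_ne_zero ((mem_pball hD).1 h1).1)).ne'
    (nm_pos hD (prim_ne_zero ((mem_pball hD).1 h2).1)).ne']
  rcases hg.val (nm e.1) with h5 | h5 <;> rcases hg.val (nm e.2) with h6 | h6
  · exact absurd (h5.trans h6.symm) h4
  · rw [h5, h6]; norm_num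
  · rw [h5, h6]; norm_num
  · exact absurd (h5.trans h6.symm) h4

/-- the pairs of determinant one with a given sign -/
lemma neg_all (hg : Pm g) (hD : t ^ 2 < 4 * c) (hsc : A.S_SC g t c) : ∃ κ X₀ : ℝ, 0 < κ ∧ ∀ X : ℝ, X₀ ≤ X →
    (open scoped Classical in
      κ * X ≤ (((dedge t c X).filter (fun e => g (NN e) = -1)).card : ℝ)) := by
  classical
  obtain ⟨ε, hε, X₁, hsc⟩ := hsc
  refine ⟨ε, X₁, hε, fun X hX => (hsc X hX).trans ?_⟩
  have : A.sedge g t c X ⊆ (dedge t c X).filter (fun e => g (NN e) = -1) := by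
    intro e he
    exact mem_filter.2 (sedge_sub hg hD he)
  exact_mod_cast card_le_card this

lemma pos_all (hg : Pm g) (hD : t ^ 2 < 4 * c) (hsc : A.S_SC g t c) : ∃ κ X₀ : ℝ, 0 < κ ∧ ∀ X : ℝ, X₀ ≤ X →
    (open scoped Classical in
      κ * X ≤ (((dedge t c X).filter (fun e => g (NN e) = 1)).card : ℝ)) := by
  classical
  obtain ⟨ε, hε, X₁, hsc⟩ := hsc
  refine ⟨ε / 8, 4 * X₁, by positivity, fun X' hX' => ?_⟩
  obtain ⟨X, rfl⟩ : ∃ X : ℝ, X' = 4 * X := ⟨X' / 4, by ring⟩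
  have hX : X₁ ≤ X := by linarith
  set T := (dedge t c (4 * X)).filter (fun e => g (NN e) = 1) with hT
  -- the map
  set F : Qd t c × Qd t c → Qd t c × Qd t c := fun e =>
    if g (nm e.1) = g (nm (e.1 + e.2)) then (e.1, e.1 + e.2) else (e.1 + e.2, e.2) with hF
  have hmaps : ∀ e ∈ A.sedge g t c X, F e ∈ T := by
    intro e he
    have he' := he
    simp only [A.sedge, GA.edge, mem_filter, mem_product] at he'
    obtain ⟨⟨⟨h1, h2⟩, h3, -⟩, h4⟩ := he'
    obtain ⟨p1, n1⟩ := (mem_pball hD).1 h1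
    obtain ⟨p2, n2⟩ := (mem_pball hD).1 h2
    have hnn : (0 : ℝ) ≤ nm e.1 := Nat.cast_nonneg _
    have hXp : 0 ≤ X := hnn.trans n1
    have n3 : (nm (e.1 + e.2) : ℝ) ≤ 4 * X := by
      have := nm_add_le hD e.1 e.2
      linarith
    have d1 : dt e.1 (e.1 + e.2) = 1 := by rw [dt_add_right, h3]
    have d2 : dt (e.1 + e.2) e.2 = 1 := by rw [dt_add_left, h3]
    have p3 : prim (e.1 + e.2) := (prim_of_dt d1).2
    have q1 : nm e.1 ≠ 0 := (nm_pos hD (prim_ne_zero p1)).ne'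
    have q2 : nm e.2 ≠ 0 := (nm_pos hD (prim_ne_zero p2)).ne'
    have q3 : nm (e.1 + e.2) ≠ 0 := (nm_pos hD (prim_ne_zero p3)).ne'
    by_cases h : g (nm e.1) = g (nm (e.1 + e.2))
    · have : F e = (e.1, e.1 + e.2) := by rw [hF]; simp only [if_pos h]
      rw [this, hT, mem_filter, mem_dedge]
      refine ⟨⟨(mem_pball hD).2 ⟨p1, by linarith⟩, (mem_pball hD).2 ⟨p3, n3⟩, d1⟩, ?_⟩
      unfold NN
      rw [hg.mul q1 q3, ← h]
      rcases hg.val (nm e.1) with h5 | h5 <;> rw [h5] <;> norm_num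
    · have : F e = (e.1 + e.2, e.2) := by rw [hF]; simp only [if_neg h]
      rw [this, hT, mem_filter, mem_dedge]
      refine ⟨⟨(mem_pball hD).2 ⟨p3, n3⟩, (mem_pball hD).2 ⟨p2, by linarith⟩, d2⟩, ?_⟩
      unfold NN
      rw [hg.mul q3 q2]
      rcases hg.val (nm e.1) with h5 | h5 <;> rcases hg.val (nm e.2) with h6 | h6 <;>
        rcases hg.val (nm (e.1 + e.2)) with h7 | h7 <;> simp_all
  have hfib : ∀ f ∈ T, ((A.sedge g t c X).filter (fun e => F e = f)).card ≤ 2 := by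
    intro f _
    have hsub : (A.sedge g t c X).filter (fun e => F e = f) ⊆ {(f.1, f.2 - f.1), (f.1 - f.2, f.2)} := by
      intro e he
      obtain ⟨-, he2⟩ := mem_filter.1 he
      rw [mem_insert, mem_singleton]
      by_cases h : g (nm e.1) = g (nm (e.1 + e.2))
      · have : F e = (e.1, e.1 + e.2) := by rw [hF]; simp only [if_pos h]
        rw [this] at he2
        left
        rw [← he2]
        ext <;> simp
      · have : F e = (e.1 + e.2, e.2) := by rw [hF]; simp only [if_neg h]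
        rw [this] at he2
        right
        rw [← he2]
        ext <;> simp
    exact (card_le_card hsub).trans card_le_two
  have hcard : (A.sedge g t c X).card ≤ 2 * T.card :=
    card_le_mul_card_image_of_maps_to hmaps 2 hfib
  have hcard' : ((A.sedge g t c X).card : ℝ) ≤ 2 * (T.card : ℝ) := by exact_mod_cast hcard
  have h1 := hsc X hX
  linarith

/-- a positive proportion of pairs with sign `e` and without large square divisors -/
theorem bs_all (hg : Pm g) (hD : t ^ 2 < 4 * c) (hsc : A.S_SC g t c) (hsqb : S_SQB t c) : ∃ S : ℕ,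
    ∀ e : ℤ, e = 1 ∨ e = -1 → ∃ κ X₀ : ℝ, 0 < κ ∧ ∀ X : ℝ, X₀ ≤ X →
      κ * X ≤ ((Bs g t c S e X).card : ℝ) := by
  classical
  have key : ∀ e : ℤ, (∃ κ X₀ : ℝ, 0 < κ ∧ ∀ X : ℝ, X₀ ≤ X →
      κ * X ≤ (((dedge t c X).filter (fun x => g (NN x) = e)).card : ℝ)) →
      ∃ S : ℕ, ∃ κ X₀ : ℝ, 0 < κ ∧ ∀ X : ℝ, X₀ ≤ X → κ * X ≤ ((Bs g t c S e X).card : ℝ) := by
    rintro e ⟨κ, X₁, hκ, h⟩
    obtain ⟨S, X₂, hS⟩ := hsqb (κ / 2) (by linarith)
    refine ⟨S, κ / 2, max X₁ X₂, by linarith, fun X hX => ?_⟩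
    have h1 := h X ((le_max_left _ _).trans hX)
    have h2 := hS X ((le_max_right _ _).trans hX)
    have h3 : (dedge t c X).filter (fun x => g (NN x) = e) ⊆
        (dedge t c X).filter (fun e => ∃ q : ℕ, S < q ∧ q ^ 2 ∣ NN e) ∪ Bs g t c S e X := by
      intro x hx
      obtain ⟨hx1, hx2⟩ := mem_filter.1 hx
      by_cases h4 : ∃ q : ℕ, S < q ∧ q ^ 2 ∣ NN x
      · exact mem_union_left _ (mem_filter.2 ⟨hx1, h4⟩)
      · push Not at h4
        refine mem_union_right _ (mem_Bs.2 ⟨hx1, fun q hq => ?_, hx2⟩)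
        by_contra h5
        exact h4 q (not_le.1 h5) hq
    have h4 : (((dedge t c X).filter (fun x => g (NN x) = e)).card : ℝ) ≤
        (((dedge t c X).filter (fun e => ∃ q : ℕ, S < q ∧ q ^ 2 ∣ NN e)).card : ℝ) +
        ((Bs g t c S e X).card : ℝ) := by
      exact_mod_cast (card_le_card h3).trans (card_union_le _ _)
    linarith
  obtain ⟨S₁, h1⟩ := key 1 (pos_all hg hD hsc)
  obtain ⟨S₂, h2⟩ := key (-1) (neg_all hg hD hsc)
  refine ⟨max S₁ S₂, fun e he => ?_⟩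
  rcases he with rfl | rfl
  · obtain ⟨κ, X₀, hκ, h⟩ := h1
    refine ⟨κ, X₀, hκ, fun X hX => (h X hX).trans ?_⟩
    exact_mod_cast card_le_card (Bs_mono (le_max_left _ _) _ _)
  · obtain ⟨κ, X₀, hκ, h⟩ := h2
    refine ⟨κ, X₀, hκ, fun X hX => (h X hX).trans ?_⟩
    exact_mod_cast card_le_card (Bs_mono (le_max_right _ _) _ _)

end Pool.Agent.W688.GS.BA

namespace Pool.Agent.W688.GS.BR

open Finset Filter
open Pool.Agent.W78.GS
open Pool.Agent.W78
open Pool.Agent.W78.GR hiding sedge Bs mem_Bs Bs_mono sedge_sub neg_all pos_all bs_all S_SC GG PE S_DEC S_MOM0 S_MOMP S_MOM S_CELLE S_MR S_PAIR S_U0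

variable {g : ℕ → ℤ} {t c : ℤ} {η : (Qd t c)ˣ}

open scoped Classical in
/-- pairs of determinant one whose product of norms has no large square divisor, with sign `s` -/
noncomputable def Bs (g : ℕ → ℤ) (η : (Qd t c)ˣ) (S : ℕ) (s : ℤ) (X : ℝ) : Finset (Qd t c × Qd t c) :=
  (dedge η X).filter (fun e => (∀ q : ℕ, q ^ 2 ∣ NN e → q ≤ S) ∧ g (NN e) = s)

lemma mem_Bs {S : ℕ} {s : ℤ} {X : ℝ} {e : Qd t c × Qd t c} :
    e ∈ Bs g η S s X ↔ e ∈ dedge η X ∧ (∀ q : ℕ, q ^ 2 ∣ NN e → q ≤ S) ∧ g (NN e) = s := by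
  simp [Bs]

lemma Bs_mono {S S' : ℕ} (h : S ≤ S') (s : ℤ) (X : ℝ) : Bs g η S s X ⊆ Bs g η S' s X := by
  intro e he
  rw [mem_Bs] at he ⊢
  exact ⟨he.1, fun q hq => (he.2.1 q hq).trans h, he.2.2⟩

lemma sedge_sub (hg : Pm g) (U : Un t c η) {X : ℝ} {e : Qd t c × Qd t c} (he : e ∈ R.sedge g η X) :
    e ∈ dedge η X ∧ g (NN e) = -1 := by
  rw [mem_sedge' U] at he
  obtain ⟨h0, h4⟩ := he
  refine ⟨U.mem_dedge.2 h0, ?_⟩
  unfold NN
  rw [hg.mul (nm_pos U.disc h0.1.1).ne' (nm_pos U.disc h0.2.2.1).ne']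
  rcases hg.val (nm e.1) with h5 | h5 <;> rcases hg.val (nm e.2) with h6 | h6
  · exact absurd (h5.trans h6.symm) h4
  · rw [h5, h6]; norm_num
  · rw [h5, h6]; norm_num
  · exact absurd (h5.trans h6.symm) h4

lemma neg_all (hg : Pm g) (U : Un t c η) (hsc : R.S_SC g η) : ∃ κ X₀ : ℝ, 0 < κ ∧ ∀ X : ℝ, X₀ ≤ X →
    (open scoped Classical in
      κ * X ≤ (((dedge η X).filter (fun e => g (NN e) = -1)).card : ℝ)) := by
  classical
  obtain ⟨ε, hε, X₁, hsc⟩ := hsc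
  refine ⟨ε, X₁, hε, fun X hX => (hsc X hX).trans ?_⟩
  have : R.sedge g η X ⊆ (dedge η X).filter (fun e => g (NN e) = -1) := by
    intro e he
    exact mem_filter.2 (sedge_sub hg U he)
  exact_mod_cast card_le_card this

lemma pos_all (hg : Pm g) (U : Un t c η) (hsc : R.S_SC g η) : ∃ κ X₀ : ℝ, 0 < κ ∧ ∀ X : ℝ, X₀ ≤ X →
    (open scoped Classical in
      κ * X ≤ (((dedge η X).filter (fun e => g (NN e) = 1)).card : ℝ)) := by
  classical
  obtain ⟨ε, hε, X₁, hsc⟩ := hsc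
  have hD := disc_pos U.disc
  set Q : ℝ := 4 + ((t : ℝ) ^ 2 - 4 * c) with hQ
  have hQ1 : 1 ≤ Q := by rw [hQ]; linarith
  refine ⟨ε / (3 * Q), Q * X₁, by positivity, fun X' hX' => ?_⟩
  obtain ⟨X, rfl⟩ : ∃ X : ℝ, X' = Q * X := ⟨X' / Q, by field_simp⟩
  have hX : X₁ ≤ X := le_of_mul_le_mul_left hX' (by linarith)
  set T := (dedge η (Q * X)).filter (fun e => g (NN e) = 1) with hT
  -- the map
  set F : Qd t c × Qd t c → Qd t c × Qd t c := fun e =>
    if g (nm e.1) = g (nm (e.1 + e.2)) then (e.1, e.1 + e.2)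
      else nrm η (e.1 + e.2, e.2) with hF
  have hmaps : ∀ e ∈ R.sedge g η X, F e ∈ T := by
    intro e he
    rw [mem_sedge' U] at he
    obtain ⟨⟨f1, n1, p2, n2, h3⟩, h4⟩ := he
    have p1 := f1.1
    have hXp : 1 ≤ X := (one_le_nmR U.disc p1).trans n1
    have n3 : (nm (e.1 + e.2) : ℝ) ≤ Q * X := by
      rw [nm_add_tp U.disc p1 p2]
      have := (mix_le U.disc p1 p2 h3 n1 n2).2.1
      rw [hQ]
      nlinarith
    have hXQ : X ≤ Q * X := by nlinarith
    have d1 : dt e.1 (e.1 + e.2) = 1 := by rw [dt_add_right, h3]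
    have d2 : dt (e.1 + e.2) e.2 = 1 := by rw [dt_add_left, h3]
    have p3 : tp (e.1 + e.2) := tp_add p1 p2
    have q1 : nm e.1 ≠ 0 := (nm_pos U.disc p1).ne'
    have q2 : nm e.2 ≠ 0 := (nm_pos U.disc p2).ne'
    have q3 : nm (e.1 + e.2) ≠ 0 := (nm_pos U.disc p3).ne'
    by_cases h : g (nm e.1) = g (nm (e.1 + e.2))
    · have : F e = (e.1, e.1 + e.2) := by rw [hF]; simp only [if_pos h]
      rw [this, hT, mem_filter, U.mem_dedge]
      refine ⟨⟨f1, by linarith, p3, n3, d1⟩, ?_⟩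
      unfold NN
      rw [hg.mul q1 q3, ← h]
      rcases hg.val (nm e.1) with h5 | h5 <;> rw [h5] <;> norm_num
    · have : F e = nrm η (e.1 + e.2, e.2) := by rw [hF]; simp only [if_neg h]
      rw [this, hT, mem_filter, U.mem_dedge, NN_nrm]
      refine ⟨⟨U.rep_fd p3, ?_, ?_, ?_, ?_⟩, ?_⟩
      · change (nm (rep η (e.1 + e.2)) : ℝ) ≤ _
        rw [Un.nm_rep]
        exact n3
      · exact (U.tp_zpow_mul _).2 p2
      · change (nm (((η ^ ex η (e.1 + e.2) : (Qd t c)ˣ) : Qd t c) * e.2) : ℝ) ≤ _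
        rw [Un.nm_zpow_mul]
        linarith
      · change dt (((η ^ ex η (e.1 + e.2) : (Qd t c)ˣ) : Qd t c) * (e.1 + e.2))
          (((η ^ ex η (e.1 + e.2) : (Qd t c)ˣ) : Qd t c) * e.2) = 1
        rw [U.dt_zpow_mul, d2]
      · unfold NN
        rw [hg.mul q3 q2]
        rcases hg.val (nm e.1) with h5 | h5 <;> rcases hg.val (nm e.2) with h6 | h6 <;>
          rcases hg.val (nm (e.1 + e.2)) with h7 | h7 <;> simp_all
  have hfib : ∀ f ∈ T, ((R.sedge g η X).filter (fun e => F e = f)).card ≤ 3 := by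
    intro f _
    have hsub : (R.sedge g η X).filter (fun e => F e = f) ⊆
        {(f.1, f.2 - f.1), (f.1 - f.2, f.2),
          (((η ^ (1 : ℤ) : (Qd t c)ˣ) : Qd t c) * (f.1 - f.2),
            ((η ^ (1 : ℤ) : (Qd t c)ˣ) : Qd t c) * f.2)} := by
      intro e he
      obtain ⟨he1, he2⟩ := mem_filter.1 he
      rw [mem_sedge' U] at he1
      obtain ⟨⟨f1, n1, p2, n2, h3⟩, h4⟩ := he1
      rw [mem_insert, mem_insert, mem_singleton]
      by_cases h : g (nm e.1) = g (nm (e.1 + e.2))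
      · have : F e = (e.1, e.1 + e.2) := by rw [hF]; simp only [if_pos h]
        rw [this] at he2
        left
        rw [← he2]
        ext <;> simp
      · have : F e = nrm η (e.1 + e.2, e.2) := by rw [hF]; simp only [if_neg h]
        rw [this] at he2
        have p3 : tp (e.1 + e.2) := tp_add f1.1 p2
        obtain ⟨a1, a2⟩ := U.ang_lt_of_dt f1.1 p3 (by rw [dt_add_right, h3])
        have a3 := f1.2.1
        have a4 := f1.2.2
        rcases ex_of_lt U (z := e.1 + e.2) (by linarith) (by linarith) with hx | hx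
        · right; left
          rw [← he2]
          unfold nrm rep
          simp only [hx, zpow_zero, Units.val_one, one_mul]
          ext <;> simp
        · right; right
          rw [← he2]
          unfold nrm rep
          simp only [hx]
          have e1 : ((η ^ (1 : ℤ) : (Qd t c)ˣ) : Qd t c) * ((η ^ (-1 : ℤ) : (Qd t c)ˣ) : Qd t c) =
              1 := by
            rw [← Units.val_mul, ← zpow_add]
            simp
          have e2 : ∀ x : Qd t c, ((η ^ (1 : ℤ) : (Qd t c)ˣ) : Qd t c) *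
              (((η ^ (-1 : ℤ) : (Qd t c)ˣ) : Qd t c) * x) = x := by
            intro x
            rw [← mul_assoc, e1, one_mul]
          rw [← mul_sub, e2, e2]
          ext <;> simp
    exact (card_le_card hsub).trans card_le_three
  have hcard : (R.sedge g η X).card ≤ 3 * T.card :=
    card_le_mul_card_image_of_maps_to hmaps 3 hfib
  have hcard' : ((R.sedge g η X).card : ℝ) ≤ 3 * (T.card : ℝ) := by exact_mod_cast hcard
  have h1 := hsc X hX
  have h2 : ε / (3 * Q) * (Q * X) = ε * X / 3 := by field_simp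
  rw [h2]
  linarith

/-- a positive proportion of pairs with sign `e` and without large square divisors -/
theorem bs_all (hg : Pm g) (U : Un t c η) (hsc : R.S_SC g η) (hsqb : S_SQB t c η) : ∃ S : ℕ,
    ∀ e : ℤ, e = 1 ∨ e = -1 → ∃ κ X₀ : ℝ, 0 < κ ∧ ∀ X : ℝ, X₀ ≤ X →
      κ * X ≤ ((Bs g η S e X).card : ℝ) := by
  classical
  have key : ∀ e : ℤ, (∃ κ X₀ : ℝ, 0 < κ ∧ ∀ X : ℝ, X₀ ≤ X →
      κ * X ≤ (((dedge η X).filter (fun x => g (NN x) = e)).card : ℝ)) →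
      ∃ S : ℕ, ∃ κ X₀ : ℝ, 0 < κ ∧ ∀ X : ℝ, X₀ ≤ X → κ * X ≤ ((Bs g η S e X).card : ℝ) := by
    rintro e ⟨κ, X₁, hκ, h⟩
    obtain ⟨S, X₂, hS⟩ := hsqb (κ / 2) (by linarith)
    refine ⟨S, κ / 2, max X₁ X₂, by linarith, fun X hX => ?_⟩
    have h1 := h X ((le_max_left _ _).trans hX)
    have h2 := hS X ((le_max_right _ _).trans hX)
    have h3 : (dedge η X).filter (fun x => g (NN x) = e) ⊆
        (dedge η X).filter (fun e => ∃ q : ℕ, S < q ∧ q ^ 2 ∣ NN e) ∪ Bs g η S e X := by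
      intro x hx
      obtain ⟨hx1, hx2⟩ := mem_filter.1 hx
      by_cases h4 : ∃ q : ℕ, S < q ∧ q ^ 2 ∣ NN x
      · exact mem_union_left _ (mem_filter.2 ⟨hx1, h4⟩)
      · push Not at h4
        refine mem_union_right _ (mem_Bs.2 ⟨hx1, fun q hq => ?_, hx2⟩)
        by_contra h5
        exact h4 q (not_le.1 h5) hq
    have h4 : (((dedge η X).filter (fun x => g (NN x) = e)).card : ℝ) ≤
        (((dedge η X).filter (fun e => ∃ q : ℕ, S < q ∧ q ^ 2 ∣ NN e)).card : ℝ) +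
        ((Bs g η S e X).card : ℝ) := by
      exact_mod_cast (card_le_card h3).trans (card_union_le _ _)
    linarith
  obtain ⟨S₁, h1⟩ := key 1 (pos_all hg U hsc)
  obtain ⟨S₂, h2⟩ := key (-1) (neg_all hg U hsc)
  refine ⟨max S₁ S₂, fun e he => ?_⟩
  rcases he with rfl | rfl
  · obtain ⟨κ, X₀, hκ, h⟩ := h1
    refine ⟨κ, X₀, hκ, fun X hX => (h X hX).trans ?_⟩
    exact_mod_cast card_le_card (Bs_mono (le_max_left _ _) _ _)
  · obtain ⟨κ, X₀, hκ, h⟩ := h2
    refine ⟨κ, X₀, hκ, fun X hX => (h X hX).trans ?_⟩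
    exact_mod_cast card_le_card (Bs_mono (le_max_right _ _) _ _)

end Pool.Agent.W688.GS.BR

namespace Pool.Agent.W688.GS

open Finset Filter
open Pool.Agent.W78
open Pool.Agent.W78.GS
open Pool.Agent.W78.GA (Qd nm ip NN)
open Pool.Agent.W78.GT (Tr NT tri Qp mem_tri)

variable {g : ℕ → ℤ} {t c : ℤ}

/-- from pairs to triples -/
theorem pos_of_pairs (P : ℕ → Prop) (T : ℝ → Finset (Qd t c × Qd t c)) (W : ℕ)
    (hT : ∀ (X : ℝ), ∀ e ∈ T X, (NN e : ℤ) = ip e.1 e.2 ^ 2 + t * ip e.1 e.2 + c ∧ 1 ≤ nm e.1 ∧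
      (nm e.1 : ℝ) ≤ X ∧ 1 ≤ nm e.2 ∧ (nm e.2 : ℝ) ≤ X ∧ P (NN e))
    (hfib : ∀ (X : ℝ) (n : ℤ) (d : ℕ) (S : Finset (Qd t c × Qd t c)), S ⊆ T X →
      (∀ e ∈ S, ip e.1 e.2 = n ∧ nm e.1 = d) → S.card ≤ W)
    (hpos : ∃ κ X₀ : ℝ, 0 < κ ∧ ∀ X : ℝ, X₀ ≤ X → κ * X ≤ ((T X).card : ℝ)) : Pos t c P := by
  classical
  obtain ⟨κ, X₀, hκ, h⟩ := hpos
  refine ⟨κ / (2 * W + 1), by positivity, max X₀ 0, fun X hX => ?_⟩
  have hX0 : 0 ≤ X := (le_max_right _ _).trans hX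
  have h1 := h X ((le_max_left _ _).trans hX)
  set F : Qd t c × Qd t c → Tr := fun e =>
    (nm e.1, if 0 ≤ 2 * ip e.1 e.2 + t then ip e.1 e.2 else -t - ip e.1 e.2, nm e.2) with hF
  have hNT : ∀ e, NT (F e) = NN e := fun e => rfl
  have hmaps : ∀ e ∈ T X, F e ∈ (tri t c X X).filter (fun e => P (NT e)) := by
    intro e he
    obtain ⟨a1, a2, a3, a4, a5, a6⟩ := hT X e he
    rw [mem_filter, hNT, mem_tri]
    refine ⟨⟨a2, a3, a4, a5, ?_, ?_⟩, a6⟩
    · have a7 : ((nm e.1 : ℤ) * nm e.2) = ip e.1 e.2 ^ 2 + t * ip e.1 e.2 + c := by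
        rw [← a1]; unfold NN; push_cast; rfl
      rw [hF]
      simp only
      rw [a7]
      unfold Qp
      split_ifs
      · rfl
      · ring
    · rw [hF]
      simp only
      split_ifs with h0
      · exact h0
      · linarith
  have hfibc : ∀ f ∈ (tri t c X X).filter (fun e => P (NT e)),
      ((T X).filter (fun e => F e = f)).card ≤ 2 * W := by
    intro f _
    have hsub : (T X).filter (fun e => F e = f) ⊆
        (T X).filter (fun e => ip e.1 e.2 = f.2.1 ∧ nm e.1 = f.1) ∪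
        (T X).filter (fun e => ip e.1 e.2 = -t - f.2.1 ∧ nm e.1 = f.1) := by
      intro e he
      obtain ⟨he1, he2⟩ := mem_filter.1 he
      rw [mem_union, mem_filter, mem_filter]
      have e1 : nm e.1 = f.1 := by rw [← he2]
      have e2 : (if 0 ≤ 2 * ip e.1 e.2 + t then ip e.1 e.2 else -t - ip e.1 e.2) = f.2.1 := by
        rw [← he2]
      split_ifs at e2
      · left; exact ⟨he1, e2, e1⟩
      · right; exact ⟨he1, by linarith, e1⟩
    have c1 := hfib X f.2.1 f.1 ((T X).filter (fun e => ip e.1 e.2 = f.2.1 ∧ nm e.1 = f.1))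
      (filter_subset _ _) (fun e he => (mem_filter.1 he).2)
    have c2 := hfib X (-t - f.2.1) f.1 ((T X).filter (fun e => ip e.1 e.2 = -t - f.2.1 ∧ nm e.1 = f.1))
      (filter_subset _ _) (fun e he => (mem_filter.1 he).2)
    have c3 := (card_le_card hsub).trans (card_union_le _ _)
    omega
  have hcard : (T X).card ≤ 2 * W * ((tri t c X X).filter (fun e => P (NT e))).card :=
    card_le_mul_card_image_of_maps_to hmaps (2 * W) hfibc
  have hcard' : ((T X).card : ℝ) ≤ 2 * W * (((tri t c X X).filter (fun e => P (NT e))).card : ℝ) := by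
    exact_mod_cast hcard
  rw [div_mul_eq_mul_div, div_le_iff₀ (by positivity)]
  have h2 : (0:ℝ) ≤ (((tri t c X X).filter (fun e => P (NT e))).card : ℝ) := Nat.cast_nonneg _
  calc κ * X ≤ 2 * W * (((tri t c X X).filter (fun e => P (NT e))).card : ℝ) := h1.trans hcard'
    _ ≤ _ := by nlinarith

/-- GS-11, negative discriminants -/
theorem bnd_neg (hg : Pm g) (hD : t ^ 2 < 4 * c) (hsc : GS.A.S_SC g t c) (hsqb : GA.S_SQB t c) :
    S_BND g t c := by
  classical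
  obtain ⟨S, hS⟩ := BA.bs_all hg hD hsc hsqb
  refine ⟨S, fun s hs => ?_⟩
  refine pos_of_pairs _ (BA.Bs g t c S s) 6 ?_ ?_ (hS s hs)
  · intro X e he
    obtain ⟨h1, h2, h3⟩ := BA.mem_Bs.1 he
    obtain ⟨g1, g2, g3⟩ := GA.mem_dedge.1 h1
    obtain ⟨p1, n1⟩ := (GA.mem_pball hD).1 g1
    obtain ⟨p2, n2⟩ := (GA.mem_pball hD).1 g2
    exact ⟨GA.NN_eq hD g3, GA.nm_pos hD (GA.prim_ne_zero p1), n1,
      GA.nm_pos hD (GA.prim_ne_zero p2), n2, h2, h3⟩
  · intro X n d T hT h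
    refine Pool.Agent.W29.GA.mult hD n d T fun e he => ?_
    have h1 := (BA.mem_Bs.1 (hT he)).1
    exact ⟨(GA.mem_dedge.1 h1).2.2, h e he⟩

/-- GS-11, positive discriminants -/
theorem bnd_pos (hg : Pm g) {η : (Qd t c)ˣ} (U : GR.Un t c η) (hsc : GS.R.S_SC g η)
    (hsqb : GR.S_SQB t c η) : S_BND g t c := by
  classical
  obtain ⟨S, hS⟩ := BR.bs_all hg U hsc hsqb
  obtain ⟨W, hW⟩ := Pool.Agent.W29.GR.mult U
  refine ⟨S, fun s hs => ?_⟩
  refine pos_of_pairs _ (BR.Bs g η S s) W ?_ ?_ (hS s hs)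
  · intro X e he
    obtain ⟨h1, h2, h3⟩ := BR.mem_Bs.1 he
    obtain ⟨f1, n1, p2, n2, d1⟩ := U.mem_dedge.1 h1
    exact ⟨GR.NN_eq U.disc f1.1 p2 d1, GR.nm_pos U.disc f1.1, n1, GR.nm_pos U.disc p2, n2, h2, h3⟩
  · intro X n d T hT h
    refine hW n d T fun e he => ?_
    have h1 := (BR.mem_Bs.1 (hT he)).1
    obtain ⟨f1, n1, p2, n2, d1⟩ := U.mem_dedge.1 h1
    exact ⟨f1, d1, (h e he).1, (h e he).2⟩

end Pool.Agent.W688.GS
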